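import Mathlib

/-! The affine maps of a field whose linear part lies in a given group of units. -/

set_option autoImplicit false

namespace Pool.Agent.Lib.MP_8885f1_al

/-- The map `t ↦ u t + b`. -/
@[ext] structure Aff {F : Type} [Field F] (U : Subgroup Fˣ) where
  b : F
  u : U

namespace Aff

variable {F : Type} [Field F] {U : Subgroup Fˣ}

instance : Mul (Aff U) := ⟨fun g h => ⟨g.b + (g.u : Fˣ) * h.b, g.u * h.u⟩⟩
instance : One (Aff U) := ⟨⟨0, 1⟩⟩
instance : Inv (Aff U) := ⟨fun g => ⟨-(((g.u : Fˣ) : F)⁻¹ * g.b), g.u⁻¹⟩⟩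

@[simp] theorem mul_b (g h : Aff U) : (g * h).b = g.b + (g.u : Fˣ) * h.b := rfl
@[simp] theorem mul_u (g h : Aff U) : (g * h).u = g.u * h.u := rfl
@[simp] theorem one_b : (1 : Aff U).b = 0 := rfl
@[simp] theorem one_u : (1 : Aff U).u = 1 := rfl
@[simp] theorem inv_b (g : Aff U) : g⁻¹.b = -(((g.u : Fˣ) : F)⁻¹ * g.b) := rfl
@[simp] theorem inv_u (g : Aff U) : g⁻¹.u = g.u⁻¹ := rfl

instance : Group (Aff U) :=
  Group.ofLeftAxioms
    (fun a b c => Aff.ext (by simp [mul_add, mul_assoc, add_assoc]) (mul_assoc _ _ _))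
    (fun a => Aff.ext (by simp) (one_mul _)) (fun a => Aff.ext (by simp) (inv_mul_cancel _))

instance [Finite F] : Finite (Aff U) :=
  Finite.of_injective (fun g => (g.b, g.u)) fun _ _ h =>
    Aff.ext (congrArg Prod.fst h) (congrArg Prod.snd h)

/-- The linear part. -/
def lin : Aff U →* U where
  toFun := u
  map_one' := rfl
  map_mul' _ _ := rfl

/-- The maps without translation part. -/
def sec : U →* Aff U where
  toFun u := ⟨0, u⟩
  map_one' := rfl
  map_mul' _ _ := Aff.ext (by simp) rfl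

/-- The stabiliser of a point. -/
def stab (c : F) : Subgroup (Aff U) where
  carrier := {g | g.b + (g.u : Fˣ) * c = c}
  one_mem' := by simp
  mul_mem' {g h} hg hh := by
    simp only [Set.mem_ofPred_eq, mul_b, mul_u, Subgroup.coe_mul, Units.val_mul] at *
    linear_combination hg + (g.u : Fˣ) * hh
  inv_mem' {g} hg := by
    simp only [Set.mem_ofPred_eq, inv_b, inv_u, Subgroup.coe_inv, Units.val_inv_eq_inv_val] at *
    have := (g.u : Fˣ).ne_zero
    field_simp
    linear_combination -hg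

theorem stab_ne (c : F) : (stab c : Subgroup (Aff U)) ≠ ⊤ := fun h => by
  have : (⟨1, 1⟩ : Aff U) ∈ stab c := h ▸ trivial
  simp [stab] at this

theorem conj_mem (x : U) (g : Aff U) : g⁻¹ * sec x * g ∈ stab g⁻¹.b := by
  have := (g.u : Fˣ).ne_zero
  simp [stab, sec]
  field_simp
  ring

theorem card_ker : Nat.card (lin : Aff U →* U).ker = Nat.card F :=
  Nat.card_congr ⟨fun g => g.1.b, fun b => ⟨⟨b, 1⟩, rfl⟩,
    fun g => Subtype.ext (Aff.ext rfl g.2.symm), fun _ => rfl⟩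

theorem index_ker : (lin : Aff U →* U).ker.index = Nat.card U := by
  rw [Subgroup.index_ker, MonoidHom.range_eq_top.2 fun u => ⟨sec u, rfl⟩, Subgroup.card_top]

theorem gen (x : U) (h1 : x ≠ 1) (hx : ∀ u : U, u ∈ Subgroup.zpowers x) :
    Subgroup.closure {y : Aff U | ∃ g, y = g⁻¹ * sec x * g} = ⊤ := by
  set K := Subgroup.closure {y : Aff U | ∃ g, y = g⁻¹ * sec x * g}
  have h2 : sec x ∈ K := Subgroup.subset_closure ⟨1, by simp⟩
  have h3 : (((x : Fˣ) : F) - 1) ≠ 0 := fun h =>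
    h1 (Subtype.ext (Units.ext (sub_eq_zero.1 h)))
  refine eq_top_iff.2 fun g _ => ?_
  obtain ⟨k, hk⟩ := hx g.u
  have h4 := K.mul_mem (K.mul_mem (Subgroup.subset_closure ⟨⟨g.b / (((x : Fˣ) : F) - 1), 1⟩, rfl⟩)
    (K.inv_mem h2)) (K.zpow_mem h2 k)
  rw [← map_zpow, show x ^ k = g.u from hk] at h4
  refine (Aff.ext ?_ ?_ : _ = g) ▸ h4
  · simp [sec]
    field_simp
    ring
  · simp [sec]

end Aff

end Pool.Agent.Lib.MP_8885f1_al
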