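import Pool.Agent.Lib.MP_8885f1_al.Zipper

set_option autoImplicit false

namespace Pool.Agent.Lib.MP_8885f1_al

variable {G : Type*} [Group G]

/-- No proper normal subgroup of `K` contains `z`. -/
def Gy (z : G) (K : Subgroup G) : Prop := ∀ N : Subgroup G, z ∈ N → N ≤ K → Nm K N → N = K

lemma Gy.conj {z : G} {K : Subgroup G} (h : Gy z K) (t : G) : Gy (t * z * t⁻¹) (cj t K) := by
  intro N h1 h2 h3
  have h1' : z ∈ cj t⁻¹ N := by
    rw [mem_cj, inv_inv]; exact h1
  have h2' := cj_mono t⁻¹ h2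
  have h3' := h3.conj t⁻¹
  rw [cj_inv_cj] at h2' h3'
  rw [← h _ h1' h2' h3', cj_cj_inv]

lemma conj_mem_cj {z t : G} {K : Subgroup G} (h : z ∈ K) : t * z * t⁻¹ ∈ cj t K := by
  rw [mem_cj]
  have e : t⁻¹ * (t * z * t⁻¹) * t = z := by group
  rwa [e]

lemma count_bound [Finite G] {p : ℕ} (hp : p.Prime) {z : G} {n : ℕ} (hz : z ^ p ^ n = 1)
    (𝓜 : Finset (Subgroup G)) (H W : Subgroup G) (hH : H ∈ 𝓜) (hzH : cj z H = H)
    (hW : ∀ j : ℕ, cj (z ^ j) W ∈ 𝓜) (hzW : cj z W ≠ W) : p + 1 ≤ 𝓜.card := by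
  classical
  have hinj : ∀ i j : ℕ, i < j → j < p → cj (z ^ i) W ≠ cj (z ^ j) W := by
    intro i j hij hj h
    apply hzW
    obtain ⟨d, rfl⟩ := Nat.exists_eq_add_of_lt hij
    have h1 : cj (z ^ (d + 1)) W = W := by
      apply cj_inj (z ^ i)
      rw [cj_cj, ← pow_add, ← add_assoc]
      exact h.symm
    have hc : (d + 1).Coprime (orderOf z) := by
      apply Nat.Coprime.coprime_dvd_right (orderOf_dvd_of_pow_eq_one hz)
      apply Nat.Coprime.pow_right
      exact (Nat.coprime_of_lt_prime (by omega) (by omega) hp).symm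
    obtain ⟨m, hm⟩ := exists_pow_eq_self_of_coprime hc
    have : (z ^ (d + 1)) ^ m ∈ St W := (St W).pow_mem (mem_St.mpr h1) m
    rw [hm] at this
    exact this
  have hne : ∀ j : ℕ, cj (z ^ j) W ≠ H := by
    intro j h
    apply hzW
    have h1 : z ^ j ∈ St H := (St H).pow_mem (mem_St.mpr hzH) j
    have h2 : W = H := by
      apply cj_inj (z ^ j)
      rw [h]; exact (mem_St.mp h1).symm
    rw [h2]; exact hzH
  have hsub : insert H ((Finset.range p).image (fun j => cj (z ^ j) W)) ⊆ 𝓜 := by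
    intro X hX
    rw [Finset.mem_insert, Finset.mem_image] at hX
    rcases hX with rfl | ⟨j, _, rfl⟩
    · exact hH
    · exact hW j
  have hcard := Finset.card_le_card hsub
  rw [Finset.card_insert_of_notMem, Finset.card_image_of_injOn, Finset.card_range] at hcard
  · exact hcard
  · intro i hi j hj hij
    simp only [Finset.coe_range, Set.mem_Iio] at hi hj
    rcases lt_trichotomy i j with h | h | h
    · exact absurd hij (hinj i j h hj)
    · exact h
    · exact absurd hij.symm (hinj j i h hi)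
  · rw [Finset.mem_image]
    rintro ⟨j, _, hj⟩
    exact hne j hj

theorem main [Finite G] {p : ℕ} (hp : p.Prime) (T : Subgroup G) :
    ∀ y ∈ T, (∃ n : ℕ, y ^ p ^ n = 1) → Gy y T →
      ∀ 𝓗 : Finset (Subgroup G), (∀ H ∈ 𝓗, ¬ T ≤ H) →
        (∀ t ∈ T, ∃ H ∈ 𝓗, t * y * t⁻¹ ∈ H) → p + 1 ≤ 𝓗.card := by
  classical
  induction T using (wellFounded_lt (α := Subgroup G)).induction with
  | _ T ih =>
    intro y hyT ⟨n, hyn⟩ hgy 𝓗 hprop hcov
    -- families of maximal subgroups covering the class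
    have hex : ∃ k : ℕ, ∃ 𝓜 : Finset (Subgroup G), 𝓜.card = k ∧ k ≤ 𝓗.card ∧
        (∀ M ∈ 𝓜, M ⋖ T) ∧ (∀ t ∈ T, ∃ M ∈ 𝓜, t * y * t⁻¹ ∈ M) := by
      have hch : ∀ H : Subgroup G, ∃ M, H ∈ 𝓗 → (H ⊓ T ≤ M ∧ M ⋖ T) := by
        intro H
        by_cases hH : H ∈ 𝓗
        · have : H ⊓ T < T := by
            apply lt_of_le_of_ne inf_le_right
            intro h
            exact hprop H hH (le_of_eq_of_le h.symm inf_le_left)
          obtain ⟨M, h1, h2⟩ := exists_le_covBy_of_lt this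
          exact ⟨M, fun _ => ⟨h1, h2⟩⟩
        · exact ⟨⊥, fun h => absurd h hH⟩
      choose f hf using hch
      refine ⟨_, 𝓗.image f, rfl, Finset.card_image_le, ?_, ?_⟩
      · intro M hM
        obtain ⟨H, hH, rfl⟩ := Finset.mem_image.mp hM
        exact (hf H hH).2
      · intro t ht
        obtain ⟨H, hH, h⟩ := hcov t ht
        refine ⟨f H, Finset.mem_image_of_mem f hH, (hf H hH).1 ⟨h, ?_⟩⟩
        exact T.mul_mem (T.mul_mem ht hyT) (T.inv_mem ht)
    obtain ⟨𝓜, hcard, hle, hmax, hcv⟩ := Nat.find_spec hex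
    refine le_trans ?_ hle
    rw [← hcard]
    by_contra hlt
    obtain ⟨H, hH, -⟩ := hcv 1 T.one_mem
    -- an element of the class lying only in `H`
    have hz : ∃ t ∈ T, ∀ M ∈ 𝓜, t * y * t⁻¹ ∈ M → M = H := by
      by_contra hcon
      push Not at hcon
      have hlt' : (𝓜.erase H).card < Nat.find hex := by
        rw [← hcard]; exact Finset.card_erase_lt_of_mem hH
      apply Nat.find_min hex hlt'
      refine ⟨𝓜.erase H, rfl, hlt'.le.trans hle, fun M hM => hmax M (Finset.mem_of_mem_erase hM),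
        ?_⟩
      intro t ht
      obtain ⟨M, hM, h1, h2⟩ := hcon t ht
      exact ⟨M, Finset.mem_erase.mpr ⟨h2, hM⟩, h1⟩
    obtain ⟨t0, ht0, honly⟩ := hz
    set z := t0 * y * t0⁻¹ with hzdef
    have hzT : z ∈ T := T.mul_mem (T.mul_mem ht0 hyT) (T.inv_mem ht0)
    have hzn : z ^ p ^ n = 1 := by
      rw [hzdef, conj_pow, hyn]; group
    have hgz : Gy z T := by
      have := hgy.conj t0
      rwa [cj_self ht0] at this
    have hcz : ∀ t ∈ T, ∃ M ∈ 𝓜, t * z * t⁻¹ ∈ M := by
      intro t ht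
      obtain ⟨M, hM, h⟩ := hcv (t * t0) (T.mul_mem ht ht0)
      refine ⟨M, hM, ?_⟩
      have e : t * z * t⁻¹ = t * t0 * y * (t * t0)⁻¹ := by rw [hzdef]; group
      rwa [e]
    clear_value z
    -- Step 1
    have step1 : ∀ t ∈ T, ∀ K, K < T → t * z * t⁻¹ ∈ K → Gy (t * z * t⁻¹) K →
        ∃ M ∈ 𝓜, K ≤ M := by
      intro t ht K hK hmem hg
      by_contra hcon
      push Not at hcon
      apply hlt
      refine ih K hK _ hmem ⟨n, ?_⟩ hg 𝓜 hcon ?_
      · rw [conj_pow, hzn]; group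
      · intro k hk
        obtain ⟨M, hM, h⟩ := hcz (k * t) (T.mul_mem (hK.le hk) ht)
        refine ⟨M, hM, ?_⟩
        have e : k * (t * z * t⁻¹) * k⁻¹ = k * t * z * (k * t)⁻¹ := by group
        rwa [e]
    have step1' : ∀ K, K < T → z ∈ K → Gy z K → K ≤ H := by
      intro K hK hmem hg
      have e : (1 : G) * z * 1⁻¹ = z := by group
      obtain ⟨M, hM, h⟩ := step1 1 T.one_mem K hK (by rwa [e]) (by rwa [e])
      rw [← honly M hM (h hmem)]; exact h
    have hzH : z ∈ H := by
      obtain ⟨M, hM, h⟩ := hcz 1 T.one_mem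
      have e : (1 : G) * z * 1⁻¹ = z := by group
      rw [e] at h
      rw [← honly M hM h]; exact h
    have hHT : H ⋖ T := hmax H hH
    -- Step 2
    set Y : Subgroup G := sSup {K | K < T ∧ z ∈ K ∧ Gy z K} with hY
    have hYH : Y ≤ H := sSup_le (fun K hK => step1' K hK.1 hK.2.1 hK.2.2)
    have hYle : ∀ K, K < T → z ∈ K → Gy z K → K ≤ Y := fun K a b c => le_sSup ⟨a, b, c⟩
    have hzY : z ∈ Y := by
      have h1 : Subgroup.zpowers z ≤ H := Subgroup.zpowers_le.mpr hzH
      refine hYle _ (lt_of_le_of_lt h1 hHT.1) (Subgroup.mem_zpowers z) ?_ (Subgroup.mem_zpowers z)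
      intro N a b _
      exact le_antisymm b (Subgroup.zpowers_le.mpr a)
    have hgY : Gy z Y := by
      intro N a b c
      apply le_antisymm b
      apply sSup_le
      intro K hK
      have := hK.2.2 (N ⊓ K) ⟨a, hK.2.1⟩ inf_le_right
        ((c.mono (hYle K hK.1 hK.2.1 hK.2.2)).inf_right (nm_self K))
      rw [← this]; exact inf_le_left
    have hYT : Y < T := lt_of_le_of_lt hYH hHT.1
    clear_value Y
    -- Step 3
    have hsn : ∀ M, Y ≤ M → M < T → SN Y M := by
      intro M _ hM E h1 h2 h3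
      apply le_antisymm _ h1
      apply hYle E (lt_of_le_of_lt h2 hM) (h1 hzY)
      intro N a b c
      have := hgY (N ⊓ Y) ⟨a, hzY⟩ inf_le_right ((c.mono h1).inf_right (nm_self Y))
      exact h3 N (le_of_eq_of_le this.symm inf_le_left) b c
    -- Step 4
    have huniq : ∀ K, K ⋖ T → Y ≤ K → K = H := fun K hK hYK =>
      zipper T Y hYT (fun N a b c => hgz N (a hzY) b c) hsn K H hK hHT hYK hYH
    -- Step 5
    have hconj : ∀ t ∈ T, cj t H ∈ 𝓜 := by
      intro t ht
      have h1 : cj t Y < T := by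
        have := cj_lt t hYT
        rwa [cj_self ht] at this
      obtain ⟨M, hM, h⟩ := step1 t ht _ h1 (conj_mem_cj hzY) (hgY.conj t)
      have h2 : Y ≤ cj t⁻¹ M := by
        have := cj_mono t⁻¹ h
        rwa [cj_inv_cj] at this
      have h3 := huniq _ (cj_covBy (T.inv_mem ht) (hmax M hM)) h2
      rw [← h3, cj_cj_inv]; exact hM
    have hfix : ∀ t ∈ T, cj z (cj t H) = cj t H := by
      intro t ht
      by_contra hne
      apply hlt
      refine count_bound hp hzn 𝓜 H (cj t H) hH (cj_self hzH) ?_ hne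
      intro j
      rw [cj_cj]
      exact hconj _ (T.mul_mem (T.pow_mem hzT j) ht)
    have hker : T ⊓ (⨅ t : T, St (cj (t : G) H)) = T := by
      apply hgz
      · rw [Subgroup.mem_inf, Subgroup.mem_iInf]
        exact ⟨hzT, fun t => hfix t t.2⟩
      · exact inf_le_left
      · apply (nm_self T).inf_right
        intro k hk s hs
        rw [Subgroup.mem_iInf] at *
        intro t
        have := hs ⟨k⁻¹ * t, T.mul_mem (T.inv_mem hk) t.2⟩
        rw [mem_St] at *
        apply cj_inj k⁻¹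
        simp only [cj_cj] at *
        rw [← this]
        congr 1
        group
    have hnm : Nm T H := by
      rw [nm_iff]
      intro k hk
      rw [← hker] at hk
      have := (Subgroup.mem_iInf.mp (Subgroup.mem_inf.mp hk).2) 1
      rw [mem_St] at this
      simpa [cj_one] using this
    exact hHT.1.ne (hgz H hzH hHT.1.le hnm)

end Pool.Agent.Lib.MP_8885f1_al
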