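import Pool.Agent.Lib.MP_8885f1_al.Main

/-! The structure behind a covering of a class, and the bound for groups with a normal series. -/

set_option autoImplicit false

namespace Pool.Agent.Lib.MP_8885f1_al

variable {G : Type*} [Group G]

theorem struct [Finite G] (T : Subgroup G) :
    ∀ y ∈ T, Gy y T → ∀ 𝓗 : Finset (Subgroup G), (∀ H ∈ 𝓗, ¬ T ≤ H) →
      (∀ t ∈ T, ∃ H ∈ 𝓗, t * y * t⁻¹ ∈ H) →
      ∃ (T' H : Subgroup G) (z : G) (𝓜 : Finset (Subgroup G)), IsConj y z ∧ 𝓜.card ≤ 𝓗.card ∧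
        H < T' ∧ z ∈ H ∧ (∀ t ∈ T', cj t H ∈ 𝓜) ∧ ∀ t ∈ T', z ∈ cj t H → t ∈ H := by
  classical
  induction T using (wellFounded_lt (α := Subgroup G)).induction with
  | _ T ih =>
    intro y hyT hgy 𝓗 hprop hcov
    -- families of maximal subgroups covering the class
    have hex : ∃ k : ℕ, ∃ 𝓜 : Finset (Subgroup G), 𝓜.card = k ∧ k ≤ 𝓗.card ∧
        (∀ M ∈ 𝓜, M ⋖ T) ∧ (∀ t ∈ T, ∃ M ∈ 𝓜, t * y * t⁻¹ ∈ M) := by
      have hch : ∀ H : Subgroup G, ∃ M, H ∈ 𝓗 → (H ⊓ T ≤ M ∧ M ⋖ T) := by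
        intro H
        by_cases hH : H ∈ 𝓗
        · have : H ⊓ T < T := by
            apply lt_of_le_of_ne inf_le_right
            intro h
            exact hprop H hH (le_of_eq_of_le h.symm inf_le_left)
          obtain ⟨M, h1, h2⟩ := exists_le_covBy_of_lt this
          exact ⟨M, fun _ => ⟨h1, h2⟩⟩
        · exact ⟨⊥, fun h => absurd h hH⟩
      choose f hf using hch
      refine ⟨_, 𝓗.image f, rfl, Finset.card_image_le, ?_, ?_⟩
      · intro M hM
        obtain ⟨H, hH, rfl⟩ := Finset.mem_image.mp hM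
        exact (hf H hH).2
      · intro t ht
        obtain ⟨H, hH, h⟩ := hcov t ht
        refine ⟨f H, Finset.mem_image_of_mem f hH, (hf H hH).1 ⟨h, ?_⟩⟩
        exact T.mul_mem (T.mul_mem ht hyT) (T.inv_mem ht)
    obtain ⟨𝓜, hcard, hle, hmax, hcv⟩ := Nat.find_spec hex
    by_contra hlt
    obtain ⟨H, hH, -⟩ := hcv 1 T.one_mem
    -- an element of the class lying only in `H`
    have hz : ∃ t ∈ T, ∀ M ∈ 𝓜, t * y * t⁻¹ ∈ M → M = H := by
      by_contra hcon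
      push Not at hcon
      have hlt' : (𝓜.erase H).card < Nat.find hex := by
        rw [← hcard]; exact Finset.card_erase_lt_of_mem hH
      apply Nat.find_min hex hlt'
      refine ⟨𝓜.erase H, rfl, hlt'.le.trans hle, fun M hM => hmax M (Finset.mem_of_mem_erase hM),
        ?_⟩
      intro t ht
      obtain ⟨M, hM, h1, h2⟩ := hcon t ht
      exact ⟨M, Finset.mem_erase.mpr ⟨h2, hM⟩, h1⟩
    obtain ⟨t0, ht0, honly⟩ := hz
    set z := t0 * y * t0⁻¹ with hzdef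
    have hzT : z ∈ T := T.mul_mem (T.mul_mem ht0 hyT) (T.inv_mem ht0)
    have hzn : IsConj y z := isConj_iff.2 ⟨t0, rfl⟩
    have hgz : Gy z T := by
      have := hgy.conj t0
      rwa [cj_self ht0] at this
    have hcz : ∀ t ∈ T, ∃ M ∈ 𝓜, t * z * t⁻¹ ∈ M := by
      intro t ht
      obtain ⟨M, hM, h⟩ := hcv (t * t0) (T.mul_mem ht ht0)
      refine ⟨M, hM, ?_⟩
      have e : t * z * t⁻¹ = t * t0 * y * (t * t0)⁻¹ := by rw [hzdef]; group
      rwa [e]
    clear_value z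
    -- Step 1
    have step1 : ∀ t ∈ T, ∀ K, K < T → t * z * t⁻¹ ∈ K → Gy (t * z * t⁻¹) K →
        ∃ M ∈ 𝓜, K ≤ M := by
      intro t ht K hK hmem hg
      by_contra hcon
      push Not at hcon
      obtain ⟨T', H', z', 𝓝, h1, h2, h3⟩ := ih K hK _ hmem hg 𝓜 hcon fun k hk => by
        obtain ⟨M, hM, h⟩ := hcz (k * t) (T.mul_mem (hK.le hk) ht)
        refine ⟨M, hM, ?_⟩
        have e : k * (t * z * t⁻¹) * k⁻¹ = k * t * z * (k * t)⁻¹ := by group
        rwa [e]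
      exact hlt ⟨T', H', z', 𝓝, (hzn.trans (isConj_iff.2 ⟨t, rfl⟩)).trans h1,
        h2.trans (hcard.trans_le hle), h3⟩
    have step1' : ∀ K, K < T → z ∈ K → Gy z K → K ≤ H := by
      intro K hK hmem hg
      have e : (1 : G) * z * 1⁻¹ = z := by group
      obtain ⟨M, hM, h⟩ := step1 1 T.one_mem K hK (by rwa [e]) (by rwa [e])
      rw [← honly M hM (h hmem)]; exact h
    have hzH : z ∈ H := by
      obtain ⟨M, hM, h⟩ := hcz 1 T.one_mem
      have e : (1 : G) * z * 1⁻¹ = z := by group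
      rw [e] at h
      rw [← honly M hM h]; exact h
    have hHT : H ⋖ T := hmax H hH
    -- Step 2
    set Y : Subgroup G := sSup {K | K < T ∧ z ∈ K ∧ Gy z K} with hY
    have hYH : Y ≤ H := sSup_le (fun K hK => step1' K hK.1 hK.2.1 hK.2.2)
    have hYle : ∀ K, K < T → z ∈ K → Gy z K → K ≤ Y := fun K a b c => le_sSup ⟨a, b, c⟩
    have hzY : z ∈ Y := by
      have h1 : Subgroup.zpowers z ≤ H := Subgroup.zpowers_le.mpr hzH
      refine hYle _ (lt_of_le_of_lt h1 hHT.1) (Subgroup.mem_zpowers z) ?_ (Subgroup.mem_zpowers z)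
      intro N a b _
      exact le_antisymm b (Subgroup.zpowers_le.mpr a)
    have hgY : Gy z Y := by
      intro N a b c
      apply le_antisymm b
      apply sSup_le
      intro K hK
      have := hK.2.2 (N ⊓ K) ⟨a, hK.2.1⟩ inf_le_right
        ((c.mono (hYle K hK.1 hK.2.1 hK.2.2)).inf_right (nm_self K))
      rw [← this]; exact inf_le_left
    have hYT : Y < T := lt_of_le_of_lt hYH hHT.1
    clear_value Y
    -- Step 3
    have hsn : ∀ M, Y ≤ M → M < T → SN Y M := by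
      intro M _ hM E h1 h2 h3
      apply le_antisymm _ h1
      apply hYle E (lt_of_le_of_lt h2 hM) (h1 hzY)
      intro N a b c
      have := hgY (N ⊓ Y) ⟨a, hzY⟩ inf_le_right ((c.mono h1).inf_right (nm_self Y))
      exact h3 N (le_of_eq_of_le this.symm inf_le_left) b c
    -- Step 4
    have huniq : ∀ K, K ⋖ T → Y ≤ K → K = H := fun K hK hYK =>
      zipper T Y hYT (fun N a b c => hgz N (a hzY) b c) hsn K H hK hHT hYK hYH
    -- Step 5
    have hconj : ∀ t ∈ T, cj t H ∈ 𝓜 := by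
      intro t ht
      have h1 : cj t Y < T := by
        have := cj_lt t hYT
        rwa [cj_self ht] at this
      obtain ⟨M, hM, h⟩ := step1 t ht _ h1 (conj_mem_cj hzY) (hgY.conj t)
      have h2 : Y ≤ cj t⁻¹ M := by
        have := cj_mono t⁻¹ h
        rwa [cj_inv_cj] at this
      have h3 := huniq _ (cj_covBy (T.inv_mem ht) (hmax M hM)) h2
      rw [← h3, cj_cj_inv]; exact hM
    refine hlt ⟨T, H, z, 𝓜, hzn, hcard.trans_le hle, hHT.1, hzH, hconj, fun t ht h => ?_⟩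
    have h1 : t ∈ St H ⊓ T := ⟨honly _ (hconj t ht) h, ht⟩
    rcases hHT.eq_or_eq (c := St H ⊓ T) (le_inf (nm_iff_le.1 (nm_self H)) hHT.le) inf_le_right
      with h2 | h2
    · exact h2 ▸ h1
    · exact absurd (hgz H hzH hHT.le (nm_iff_le.2 (inf_eq_right.1 h2))) hHT.ne

lemma orbit_count [Finite G] {p n : ℕ} (hp : p.Prime) {z : G} (hz : z ^ p ^ n = 1)
    {T H S : Subgroup G} (𝓜 : Finset (Subgroup G)) (hS : S ≤ T) (hzH : z ∈ H)
    (hzS : ∀ s ∈ S, z * s * z⁻¹ ∈ S) (h𝓜 : ∀ t ∈ T, cj t H ∈ 𝓜)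
    (hu : ∀ t ∈ T, z ∈ cj t H → t ∈ H) : H.relIndex S ≡ 1 [MOD p] ∧ H.relIndex S ≤ 𝓜.card := by
  classical
  have := Fact.mk hp
  have key : ∀ s s' : S, (s : S ⧸ H.subgroupOf S) = s' ↔ (s : G)⁻¹ * s' ∈ H := fun s s' =>
    QuotientGroup.eq.trans Subgroup.mem_subgroupOf
  constructor
  · let f : Function.End (S ⧸ H.subgroupOf S) :=
      Quotient.map' (fun s => ⟨z * s * z⁻¹, hzS _ s.2⟩) fun s s' h => by
        have h1 := H.mul_mem (H.mul_mem hzH ((key s s').1 (Quotient.sound h))) (H.inv_mem hzH)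
        refine Quotient.exact ((key _ _).2 ?_)
        rwa [show (z * s * z⁻¹)⁻¹ * (z * s' * z⁻¹) = z * ((s : G)⁻¹ * s') * z⁻¹ by group]
    have hf : ∀ s : S, f s = (⟨z * s * z⁻¹, hzS _ s.2⟩ : S) := fun _ => rfl
    have hk : ∀ (k : ℕ) (s s' : S), (s' : G) = z ^ k * s * (z ^ k)⁻¹ → (f ^ k) s = s' := by
      intro k
      induction k with
      | zero =>
        intro s s' h
        obtain rfl : s = s' := by simpa using h.symm
        rfl
      | succ k ih =>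
        intro s s' h
        rw [pow_succ]
        exact ih ⟨_, hzS _ s.2⟩ s' (by rw [h]; group)
    have h1 : f ^ p ^ n = 1 := funext fun q =>
      QuotientGroup.induction_on q fun s => hk _ s s (by simp [hz])
    have := Fintype.ofFinite (S ⧸ H.subgroupOf S)
    have h2 := Equiv.Perm.card_fixedPoints_modEq h1
    have h3 : f.fixedPoints = {((1 : S) : S ⧸ H.subgroupOf S)} := by
      ext q
      refine QuotientGroup.induction_on q fun s => ⟨fun h => ?_, fun h => ?_⟩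
      · have h4 := H.mul_mem ((key _ _).1 (h.symm.trans (hf s))) hzH
        rw [show (s : G)⁻¹ * (z * s * z⁻¹) * z = (s : G)⁻¹ * z * s by group] at h4
        exact ((key _ _).2 (by simpa using hu s (hS s.2) h4)).symm
      · rw [Set.mem_singleton_iff.1 h]
        exact (hf 1).trans (congrArg _ (Subtype.ext (by simp)))
    simpa [h3, ← Nat.card_eq_fintype_card, Subgroup.relIndex, Subgroup.index] using h2
  · rw [← Nat.card_eq_finsetCard]
    refine Nat.card_le_card_of_injective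
      (fun q : S ⧸ H.subgroupOf S => (⟨cj q.out H, h𝓜 _ (hS q.out.2)⟩ : 𝓜)) fun q q' h => ?_
    rw [← q.out_eq', ← q'.out_eq', key]
    refine hu _ (hS (S.mul_mem (S.inv_mem q.out.2) q'.out.2)) ?_
    rw [← cj_cj, ← Subtype.mk.inj h, cj_inv_cj]
    exact hzH

lemma exists_sylow [Finite G] {p n : ℕ} (hp : p.Prime) (hd : ¬ p ∣ Nat.card G) (φ : MulAut G)
    (hφ : φ ^ p ^ n = 1) (r : ℕ) [Fact r.Prime] : ∃ R : Sylow r G, ∀ x ∈ R, φ x ∈ R := by
  have := Fact.mk hp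
  have h1 : IsPGroup p (Subgroup.zpowers φ) := by
    obtain ⟨k, -, hk⟩ := (Nat.dvd_prime_pow hp).1 (orderOf_dvd_of_pow_eq_one hφ)
    exact IsPGroup.of_card ((Nat.card_zpowers φ).trans hk)
  obtain ⟨R, hR⟩ := h1.nonempty_fixed_point_of_prime_not_dvd_card (Sylow r G) fun h =>
    hd (h.trans ((Sylow.card_dvd_index default).trans (Subgroup.index_dvd_card _)))
  have h2 : φ • R = R := hR ⟨φ, Subgroup.mem_zpowers φ⟩
  refine ⟨R, fun x hx => ?_⟩
  rw [← h2]
  exact Subgroup.smul_mem_pointwise_smul x φ (R : Subgroup G) hx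

lemma exists_sub [Finite G] {p n : ℕ} (hp : p.Prime) {z : G} (hz : z ^ p ^ n = 1)
    {T H A B : Subgroup G} [A.Normal] [hB : B.Normal] (hzT : z ∈ T) (h1 : A ⊓ T ≤ H)
    (h2 : ¬ B ⊓ T ≤ H) (h3 : (∃ a, A.relIndex B = p ^ a) ∨ ¬ p ∣ A.relIndex B) :
    ∃ S ≤ T, (∀ s ∈ S, z * s * z⁻¹ ∈ S) ∧ IsPrimePow (H.relIndex S) := by
  let π := QuotientGroup.mk' A
  have hc : ∀ S, A.relIndex S = Nat.card (S.map π) := fun S => by
    rw [← Subgroup.relIndex_ker, QuotientGroup.ker_mk']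
  have pp : ∀ S ≤ T, ¬ S ≤ H → ∀ r a : ℕ, r.Prime → Nat.card (S.map π) ∣ r ^ a →
      IsPrimePow (H.relIndex S) := fun S hS h r a hr hd => by
    rw [← hc, ← Subgroup.inf_relIndex_right] at hd
    obtain ⟨k, -, hk⟩ := (Nat.dvd_prime_pow hr).1
      ((Subgroup.relIndex_dvd_of_le_left S ((inf_le_inf_left A hS).trans h1)).trans hd)
    rw [hk]
    exact hr.isPrimePow.pow fun h0 => h (Subgroup.relIndex_eq_one.1 (by rw [hk, h0, pow_zero]))
  have hN : ∀ s ∈ B ⊓ T, z * s * z⁻¹ ∈ B ⊓ T := fun s hs =>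
    ⟨hB.conj_mem s hs.1 z, T.mul_mem (T.mul_mem hzT hs.2) (T.inv_mem hzT)⟩
  have hd : Nat.card ((B ⊓ T).map π) ∣ A.relIndex B :=
    hc B ▸ Subgroup.card_dvd_of_le (Subgroup.map_mono inf_le_left)
  rcases h3 with ⟨a, ha⟩ | h3
  · exact ⟨_, inf_le_right, hN, pp _ inf_le_right h2 p a hp (ha ▸ hd)⟩
  have hr := Nat.minFac_prime (mt Subgroup.relIndex_eq_one.1 h2)
  have := Fact.mk hr
  have hzN : π z ∈ Subgroup.normalizer ((B ⊓ T).map π : Set (G ⧸ A)) :=
    Subgroup.mem_normalizer_fintype <| by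
      rintro _ ⟨s, hs, rfl⟩
      exact ⟨_, hN s hs, by simp⟩
  obtain ⟨R, hR⟩ := exists_sylow (n := n) hp (fun h => h3 (h.trans hd))
    (((B ⊓ T).map π).normalizerMonoidHom ⟨π z, hzN⟩)
    (by rw [← map_pow, ← map_one ((B ⊓ T).map π).normalizerMonoidHom]
        exact congrArg _ (Subtype.ext ((map_pow π z _).symm.trans (by rw [hz]; rfl)))) (H.relIndex (B ⊓ T)).minFac
  obtain ⟨a, ha⟩ := R.isPGroup'.exists_card_eq
  refine ⟨(B ⊓ T) ⊓ ((R : Subgroup _).map ((B ⊓ T).map π).subtype).comap π,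
    inf_le_left.trans inf_le_right, fun s hs => ⟨hN s hs.1, ?_⟩,
    pp _ (inf_le_left.trans inf_le_right) (fun h => R.not_dvd_index ?_) _ a hr ?_⟩
  · obtain ⟨ρ, h4, h5⟩ := hs.2
    exact ⟨_, hR ρ h4, by rw [map_mul, map_mul, map_inv, ← h5]; rfl⟩
  · have h4 := (Nat.minFac_dvd _).trans (Subgroup.relIndex_dvd_of_le_left (B ⊓ T) h)
    rw [Subgroup.inf_relIndex_left, Subgroup.relIndex_comap] at h4
    exact Subgroup.comap_map_eq_self_of_injective (Subgroup.subtype_injective ((B ⊓ T).map π))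
      (R : Subgroup ((B ⊓ T).map π)) ▸ h4
  · rw [← ha, ← Subgroup.card_map_of_injective (Subgroup.subtype_injective _)]
    exact Subgroup.card_dvd_of_le (Subgroup.map_le_iff_le_comap.2 inf_le_right)

theorem lower [Finite G] {p n : ℕ} (hp : p.Prime) {x : G} (hx : x ^ p ^ n = 1) (hg : Gy x ⊤)
    (m : ℕ) (N : ℕ → Subgroup G) (h0 : N 0 = ⊥) (hm : N m = ⊤) (hn : ∀ i, (N i).Normal)
    (hi : ∀ i < m, (∃ a, (N i).relIndex (N (i + 1)) = p ^ a) ∨ ¬ p ∣ (N i).relIndex (N (i + 1)))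
    (𝓗 : Finset (Subgroup G)) (h1 : ∀ H ∈ 𝓗, ¬ ⊤ ≤ H) (h2 : ∀ t, ∃ H ∈ 𝓗, t * x * t⁻¹ ∈ H) :
    ∃ q, IsPrimePow q ∧ q ≡ 1 [MOD p] ∧ q ≤ 𝓗.card := by
  obtain ⟨T, H, z, 𝓜, hz, hc, hT, hzH, h3, h4⟩ :=
    struct ⊤ x trivial hg 𝓗 h1 fun t _ => h2 t
  have hz' : z ^ p ^ n = 1 := isConj_one_right.1 (hx ▸ hz.pow _)
  obtain ⟨i, hi', h5, h6⟩ : ∃ i < m, N i ⊓ T ≤ H ∧ ¬ N (i + 1) ⊓ T ≤ H := by
    by_contra h
    push Not at h
    have : ∀ i ≤ m, N i ⊓ T ≤ H := fun i => by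
      induction i with
      | zero => simp [h0]
      | succ i ih => exact fun h' => h i h' (ih (by omega))
    exact hT.not_ge (by simpa [hm] using this m le_rfl)
  have := hn i
  obtain ⟨S, hS, h7, h8⟩ := exists_sub (hB := hn (i + 1)) hp hz' (hT.le hzH) h5 h6 (hi i hi')
  obtain ⟨h9, h10⟩ := orbit_count hp hz' 𝓜 hS hzH h7 h3 h4
  exact ⟨_, h8, h9, h10.trans hc⟩

end Pool.Agent.Lib.MP_8885f1_al
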