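import Mathlib

set_option autoImplicit false

namespace Pool.Agent.Lib.MP_8885f1_al

variable {G : Type*} [Group G]

/-- `K` normalises `S`. -/
def Nm (K S : Subgroup G) : Prop := ∀ k ∈ K, ∀ s ∈ S, k * s * k⁻¹ ∈ S

/-- No proper normal subgroup of `E` contains `S`. -/
def Gen (S E : Subgroup G) : Prop := ∀ N : Subgroup G, S ≤ N → N ≤ E → Nm E N → N = E

/-- Subnormality of `S` in `K` (for finite groups). -/
def SN (S K : Subgroup G) : Prop := ∀ E : Subgroup G, S ≤ E → E ≤ K → Gen S E → E = S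

/-- The conjugate `x S x⁻¹`. -/
def cj (x : G) (S : Subgroup G) : Subgroup G where
  carrier := {g | x⁻¹ * g * x ∈ S}
  mul_mem' := by
    intro a b ha hb
    have : x⁻¹ * (a * b) * x = (x⁻¹ * a * x) * (x⁻¹ * b * x) := by group
    show x⁻¹ * (a * b) * x ∈ S
    rw [this]; exact S.mul_mem ha hb
  one_mem' := by
    show x⁻¹ * 1 * x ∈ S
    have : x⁻¹ * 1 * x = 1 := by group
    rw [this]; exact S.one_mem
  inv_mem' := by
    intro a ha
    show x⁻¹ * a⁻¹ * x ∈ S
    have : x⁻¹ * a⁻¹ * x = (x⁻¹ * a * x)⁻¹ := by group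
    rw [this]; exact S.inv_mem ha

lemma mem_cj {x g : G} {S : Subgroup G} : g ∈ cj x S ↔ x⁻¹ * g * x ∈ S := Iff.rfl

lemma cj_cj (x y : G) (S : Subgroup G) : cj x (cj y S) = cj (x * y) S := by
  ext g
  simp only [mem_cj]
  have : y⁻¹ * (x⁻¹ * g * x) * y = (x * y)⁻¹ * g * (x * y) := by group
  rw [this]

lemma cj_one (S : Subgroup G) : cj 1 S = S := by
  ext g
  simp [mem_cj]

lemma cj_inv_cj (x : G) (S : Subgroup G) : cj x⁻¹ (cj x S) = S := by
  rw [cj_cj, inv_mul_cancel, cj_one]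

lemma cj_cj_inv (x : G) (S : Subgroup G) : cj x (cj x⁻¹ S) = S := by
  rw [cj_cj, mul_inv_cancel, cj_one]

lemma cj_mono (x : G) {S T : Subgroup G} (h : S ≤ T) : cj x S ≤ cj x T :=
  fun _ hg => h hg

lemma cj_inj (x : G) {S T : Subgroup G} (h : cj x S = cj x T) : S = T := by
  rw [← cj_inv_cj x S, h, cj_inv_cj]

lemma cj_self {x : G} {T : Subgroup G} (hx : x ∈ T) : cj x T = T := by
  ext g
  rw [mem_cj]
  constructor
  · intro h
    have : g = x * (x⁻¹ * g * x) * x⁻¹ := by group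
    rw [this]
    exact T.mul_mem (T.mul_mem hx h) (T.inv_mem hx)
  · intro h
    exact T.mul_mem (T.mul_mem (T.inv_mem hx) h) hx

lemma cj_lt (x : G) {S T : Subgroup G} (h : S < T) : cj x S < cj x T :=
  lt_of_le_of_ne (cj_mono x h.le) (fun h' => h.ne (cj_inj x h'))

lemma cj_covBy {x : G} {T M : Subgroup G} (hx : x ∈ T) (h : M ⋖ T) : cj x M ⋖ T := by
  constructor
  · have := cj_lt x h.1
    rwa [cj_self hx] at this
  · intro c hc hc'
    have h1 := cj_lt x⁻¹ hc
    have h2 := cj_lt x⁻¹ hc'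
    rw [cj_inv_cj] at h1
    rw [cj_self (T.inv_mem hx)] at h2
    exact h.2 h1 h2

lemma Nm.conj {K S : Subgroup G} (h : Nm K S) (x : G) : Nm (cj x K) (cj x S) := by
  intro k hk s hs
  rw [mem_cj] at *
  have : x⁻¹ * (k * s * k⁻¹) * x = (x⁻¹ * k * x) * (x⁻¹ * s * x) * (x⁻¹ * k * x)⁻¹ := by group
  rw [this]
  exact h _ hk _ hs

lemma Gen.conj {S E : Subgroup G} (h : Gen S E) (x : G) : Gen (cj x S) (cj x E) := by
  intro N h1 h2 h3
  have h1' := cj_mono x⁻¹ h1
  have h2' := cj_mono x⁻¹ h2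
  have h3' := h3.conj x⁻¹
  rw [cj_inv_cj] at h1' h2' h3'
  rw [← h _ h1' h2' h3', cj_cj_inv]

lemma SN.conj {S K : Subgroup G} (h : SN S K) (x : G) : SN (cj x S) (cj x K) := by
  intro E h1 h2 h3
  have h1' := cj_mono x⁻¹ h1
  have h2' := cj_mono x⁻¹ h2
  have h3' := h3.conj x⁻¹
  rw [cj_inv_cj] at h1' h2' h3'
  rw [← h _ h1' h2' h3', cj_cj_inv]

lemma SN.mono {S K L : Subgroup G} (h : SN S K) (hL : L ≤ K) : SN S L :=
  fun E h1 h2 h3 => h E h1 (h2.trans hL) h3

lemma Nm.mono {K L S : Subgroup G} (h : Nm K S) (hL : L ≤ K) : Nm L S :=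
  fun k hk => h k (hL hk)

lemma nm_self (S : Subgroup G) : Nm S S :=
  fun _ hk _ hs => S.mul_mem (S.mul_mem hk hs) (S.inv_mem hk)

lemma nm_of_le {K S : Subgroup G} (h : K ≤ S) : Nm K S := (nm_self S).mono h

lemma nm_iff {K S : Subgroup G} : Nm K S ↔ ∀ k ∈ K, cj k S = S := by
  constructor
  · intro h k hk
    ext g
    rw [mem_cj]
    constructor
    · intro hg
      have := h k hk _ hg
      have e : k * (k⁻¹ * g * k) * k⁻¹ = g := by group
      rwa [e] at this
    · intro hg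
      have := h k⁻¹ (K.inv_mem hk) _ hg
      rwa [inv_inv] at this
  · intro h k hk s hs
    rw [← h k hk, mem_cj]
    have e : k⁻¹ * (k * s * k⁻¹) * k = s := by group
    rwa [e]

/-- The normaliser. -/
def St (S : Subgroup G) : Subgroup G where
  carrier := {g | cj g S = S}
  mul_mem' := by
    intro a b ha hb
    show cj (a * b) S = S
    rw [← cj_cj, show cj b S = S from hb, show cj a S = S from ha]
  one_mem' := cj_one S
  inv_mem' := by
    intro a ha
    show cj a⁻¹ S = S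
    have : cj a S = S := ha
    conv_lhs => rw [← this]
    exact cj_inv_cj a S

lemma mem_St {S : Subgroup G} {g : G} : g ∈ St S ↔ cj g S = S := Iff.rfl

lemma nm_iff_le {K S : Subgroup G} : Nm K S ↔ K ≤ St S := nm_iff

lemma Nm.sup_left {K L S : Subgroup G} (h1 : Nm K S) (h2 : Nm L S) : Nm (K ⊔ L) S := by
  rw [nm_iff_le] at *
  exact sup_le h1 h2

lemma Nm.sup_right {K A B : Subgroup G} (h1 : Nm K A) (h2 : Nm K B) : Nm K (A ⊔ B) := by
  intro k hk s hs
  have : A ⊔ B ≤ cj k⁻¹ (A ⊔ B) := by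
    apply sup_le
    · intro a ha
      rw [mem_cj, inv_inv]
      exact Subgroup.mem_sup_left (h1 k hk a ha)
    · intro a ha
      rw [mem_cj, inv_inv]
      exact Subgroup.mem_sup_right (h2 k hk a ha)
  have := this hs
  rwa [mem_cj, inv_inv] at this

lemma Nm.inf_right {K A B : Subgroup G} (h1 : Nm K A) (h2 : Nm K B) : Nm K (A ⊓ B) :=
  fun k hk s hs => ⟨h1 k hk s hs.1, h2 k hk s hs.2⟩

/-- Normal closure of `S` under `E`. -/
def ncl (S E : Subgroup G) : Subgroup G := sInf {N | S ≤ N ∧ Nm E N}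

lemma le_ncl (S E : Subgroup G) : S ≤ ncl S E := le_sInf (fun _ h => h.1)

lemma ncl_le {S E N : Subgroup G} (h1 : S ≤ N) (h2 : Nm E N) : ncl S E ≤ N :=
  sInf_le ⟨h1, h2⟩

lemma nm_ncl (S E : Subgroup G) : Nm E (ncl S E) := by
  intro k hk s hs
  unfold ncl at *
  rw [Subgroup.mem_sInf] at *
  intro N hN
  exact hN.2 k hk s (hs N hN)

lemma ncl_le_self {S E : Subgroup G} (h : S ≤ E) : ncl S E ≤ E := ncl_le h (nm_self E)

lemma Nm.nclo {R S E : Subgroup G} (h1 : Nm R S) (h2 : Nm R E) : Nm R (ncl S E) := by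
  intro r hr s hs
  have : ncl S E ≤ cj r⁻¹ (ncl S E) := by
    apply ncl_le
    · intro a ha
      rw [mem_cj, inv_inv]
      exact le_ncl S E (h1 r hr a ha)
    · intro e he g hg
      rw [mem_cj, inv_inv] at *
      have := nm_ncl S E _ (h2 r hr e he) _ hg
      have e' : r * e * r⁻¹ * (r * g * r⁻¹) * (r * e * r⁻¹)⁻¹ = r * (e * g * e⁻¹) * r⁻¹ := by
        group
      rwa [e'] at this
  have := this hs
  rwa [mem_cj, inv_inv] at this

lemma gen_of_ncl {S E : Subgroup G} (h : ncl S E = E) : Gen S E :=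
  fun _ h1 h2 h3 => le_antisymm h2 (le_of_eq_of_le h.symm (ncl_le h1 h3))

lemma lemmaA [Finite G] {R N E : Subgroup G} (hR : SN R E) (hRE : R ≤ E) (hNE : N ≤ E)
    (hN : Nm E N) (hg : Gen (N ⊔ R) E) : N ⊔ R = E := by
  have hfull : N ⊔ E = E := sup_eq_right.mpr hNE
  obtain ⟨F, ⟨hF1, hF2, hF3⟩, hmin⟩ :=
    (wellFounded_lt (α := Subgroup G)).has_min {F | R ≤ F ∧ F ≤ E ∧ N ⊔ F = E}
      ⟨E, hRE, le_rfl, hfull⟩
  have h1 : ncl R F ≤ F := ncl_le_self hF1
  have h2 : N ⊔ ncl R F = E := by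
    apply hg
    · exact sup_le_sup_left (le_ncl R F) N
    · exact sup_le hNE (h1.trans hF2)
    · rw [← hF3]
      apply Nm.sup_left
      · exact nm_of_le le_sup_left
      · exact (hN.mono hF2).sup_right (nm_ncl R F)
  have h3 : ncl R F = F := by
    by_contra hne
    exact hmin (ncl R F) ⟨le_ncl R F, h1.trans hF2, h2⟩ (lt_of_le_of_ne h1 hne)
  have h4 : F = R := hR F hF1 hF2 (gen_of_ncl h3)
  rw [← h4, hF3]

lemma lemmaB [Finite G] {S R H : Subgroup G} (hS : SN S H) (hR : SN R H) (hRS : Nm R S) :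
    SN (S ⊔ R) H := by
  intro E h1 h2 hg
  have hSE : S ≤ E := le_sup_left.trans h1
  have hRE : R ≤ E := le_sup_right.trans h1
  have hA : ncl S E ⊔ R = E := by
    apply lemmaA (hR.mono h2) hRE (ncl_le_self hSE) (nm_ncl S E)
    intro N a b c
    exact hg N (le_trans (sup_le_sup_right (le_ncl S E) R) a) b c
  have hR1 : Nm R (ncl S E) := (nm_ncl S E).mono hRE
  have hR2 : Nm R (ncl S (ncl S E)) := hRS.nclo hR1
  have hE2 : Nm E (ncl S (ncl S E)) := by
    have := (nm_ncl S (ncl S E)).sup_left hR2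
    rwa [hA] at this
  have h3 : ncl S (ncl S E) = ncl S E :=
    le_antisymm (ncl_le_self (le_ncl S E)) (ncl_le (le_ncl _ _) hE2)
  have h4 : ncl S E = S := hS _ (le_ncl S E) ((ncl_le_self hSE).trans h2) (gen_of_ncl h3)
  rw [← hA, h4]

lemma lemmaC [Finite G] {S : Subgroup G} (K : Subgroup G) : S ≤ K → SN S K →
    Nm K S ∨ ∃ x ∈ K, ¬ cj x S ≤ S ∧ Nm (cj x S) S := by
  induction K using (wellFounded_lt (α := Subgroup G)).induction with
  | _ K ih =>
    intro hSK hS
    by_cases hn : Nm K S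
    · exact Or.inl hn
    right
    have hne : ncl S K ≠ K := by
      intro h
      apply hn
      rw [hS K hSK le_rfl (gen_of_ncl h)]
      exact nm_self S
    have hlt : ncl S K < K := lt_of_le_of_ne (ncl_le_self hSK) hne
    rcases ih _ hlt (le_ncl S K) (hS.mono hlt.le) with h | ⟨x, hx, h⟩
    · unfold Nm at hn
      push Not at hn
      obtain ⟨k, hk, s, hs, hks⟩ := hn
      refine ⟨k, hk, ?_, h.mono ?_⟩
      · intro hle
        apply hks
        apply hle
        rw [mem_cj]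
        have e : k⁻¹ * (k * s * k⁻¹) * k = s := by group
        rwa [e]
      · intro g hg
        rw [mem_cj] at hg
        have := nm_ncl S K k hk _ (le_ncl S K hg)
        have e : k * (k⁻¹ * g * k) * k⁻¹ = g := by group
        rwa [e] at this
    · exact ⟨x, hlt.le hx, h⟩

/-- Wielandt's zipper lemma, relative to an ambient subgroup `T`. -/
lemma zipper [Finite G] (T : Subgroup G) (S : Subgroup G) : S < T → Gen S T →
    (∀ H, S ≤ H → H < T → SN S H) →
    ∀ K M, K ⋖ T → M ⋖ T → S ≤ K → S ≤ M → K = M := by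
  induction S using (wellFounded_gt (α := Subgroup G)).induction with
  | _ S ih =>
    intro hST hg hsn
    have hN : St S ⊓ T < T := by
      apply lt_of_le_of_ne inf_le_right
      intro h
      have : Nm T S := by
        rw [nm_iff_le, ← h]; exact inf_le_left
      exact hST.ne (hg S le_rfl hST.le this)
    obtain ⟨M0, hM0, hM0T⟩ := exists_le_covBy_of_lt hN
    have key : ∀ K, K ⋖ T → S ≤ K → K = M0 := by
      intro K hK hSK
      rcases lemmaC K hSK (hsn K hSK hK.1) with h | ⟨x, hx, hx1, hx2⟩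
      · have : K ≤ M0 := le_trans (le_inf (nm_iff_le.mp h) hK.1.le) hM0
        exact ((hK.eq_or_eq this hM0T.1.le).resolve_right hM0T.1.ne).symm
      · have hxT : x ∈ T := hK.1.le hx
        have hcK : cj x S ≤ K := by
          have := cj_mono x hSK
          rwa [cj_self hx] at this
        have hgt : S ⊔ cj x S > S := by
          apply lt_of_le_of_ne le_sup_left
          intro h
          exact hx1 (le_of_le_of_eq le_sup_right h.symm)
        have hK' : S ⊔ cj x S ≤ K := sup_le hSK hcK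
        have hM' : S ⊔ cj x S ≤ M0 := by
          refine le_trans (le_inf ?_ (hK'.trans hK.1.le)) hM0
          exact nm_iff_le.mp ((nm_self S).sup_left hx2)
        refine ih _ hgt (lt_of_le_of_lt hK' hK.1) ?_ ?_ K M0 hK hM0T hK' hM'
        · intro N a b c
          exact hg N (le_sup_left.trans a) b c
        · intro H hH hHT
          apply lemmaB (hsn H (le_sup_left.trans hH) hHT) _ hx2
          have h1 : S ≤ cj x⁻¹ H := by
            have := cj_mono x⁻¹ (le_sup_right.trans hH)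
            rwa [cj_inv_cj] at this
          have h2 : cj x⁻¹ H < T := by
            have := cj_lt x⁻¹ hHT
            rwa [cj_self (T.inv_mem hxT)] at this
          have := (hsn _ h1 h2).conj x
          rwa [cj_cj_inv] at this
    intro K M hK hM hSK hSM
    rw [key K hK hSK, key M hM hSM]

end Pool.Agent.Lib.MP_8885f1_al
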